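import Pool.Agent.X7.ThreeCrit.Main

namespace Pool.Agent.Results.MP_39baa9_co.EvenDegreeBound

open Pool.Agent.X7.ThreeCrit

/-- `D` is a dominating set: every vertex outside `D` has a neighbour in `D`. -/
def Dominating {V : Type} (G : SimpleGraph V) (D : Finset V) : Prop :=
  ∀ v, v ∉ D → ∃ u ∈ D, G.Adj v u

/-- The domination number: the minimum size of a dominating set. -/
noncomputable def domNumber {V : Type} (G : SimpleGraph V) : ℕ :=
  sInf {k | ∃ D : Finset V, Dominating G D ∧ D.card = k}

/-- `G` is `k`-edge-critical: its domination number is `k`, and adding any missing edge lowers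
the domination number. -/
def EdgeCritical {V : Type} (k : ℕ) (G : SimpleGraph V) : Prop :=
  domNumber G = k ∧
    ∀ u v : V, u ≠ v → ¬ G.Adj u v → domNumber (G ⊔ SimpleGraph.edge u v) < k

/-- The number of vertices of degree at most `r`. -/
noncomputable def lowCount {V : Type} (G : SimpleGraph V) (r : ℕ) : ℕ :=
  Set.ncard {v : V | (G.neighborSet v).ncard ≤ r}

theorem domNumber_le {V : Type} {G : SimpleGraph V} {D : Finset V} (h : Dominating G D) :
    domNumber G ≤ D.card := Nat.sInf_le ⟨D, h, rfl⟩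

theorem exists_dom {V : Type} [Fintype V] (G : SimpleGraph V) :
    ∃ D : Finset V, Dominating G D ∧ D.card = domNumber G := by
  have h : {k | ∃ D : Finset V, Dominating G D ∧ D.card = k}.Nonempty :=
    ⟨_, Finset.univ, fun v hv => absurd (Finset.mem_univ v) hv, rfl⟩
  exact Nat.sInf_mem h

theorem edge_adj' {V : Type} {u v a b : V} :
    (SimpleGraph.edge u v).Adj a b ↔ ((a = u ∧ b = v) ∨ (a = v ∧ b = u)) ∧ a ≠ b := by
  rw [SimpleGraph.edge_adj]

theorem hdom_of {V : Type} [Fintype V] {G : SimpleGraph V} (h : domNumber G = 3) (u w : V) :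
    ∃ z, ¬ Cl G u z ∧ ¬ Cl G w z := by
  classical
  by_contra hcon
  push Not at hcon
  have h1 : Dominating G {u, w} := by
    intro v hv
    rw [Finset.mem_insert, Finset.mem_singleton, not_or] at hv
    by_cases hu : Cl G u v
    · rcases hu with hu | hu
      · exact absurd hu.symm hv.1
      · exact ⟨u, by simp, hu.symm⟩
    · rcases hcon v hu with hw | hw
      · exact absurd hw.symm hv.2
      · exact ⟨w, by simp, hw.symm⟩
  have h2 := domNumber_le h1
  have h3 : ({u, w} : Finset V).card ≤ 2 := Finset.card_le_two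
  omega

theorem hcrit_of {V : Type} [Fintype V] {G : SimpleGraph V} (h : EdgeCritical 3 G) (u v : V)
    (huv : u ≠ v) (hadj : ¬ G.Adj u v) : ∃ w, Prv G u w v ∨ Prv G v w u := by
  classical
  have hd := hdom_of h.1
  have h1 := h.2 u v huv hadj
  obtain ⟨D, hD, hDc⟩ := exists_dom (G ⊔ SimpleGraph.edge u v)
  have hDne : D.Nonempty := by
    by_contra hcon
    rw [Finset.not_nonempty_iff_eq_empty] at hcon
    obtain ⟨x, hx, -⟩ := hD u (by rw [hcon]; simp)
    rw [hcon] at hx
    simp at hx
  obtain ⟨p, hp⟩ := hDne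
  obtain ⟨q, hq⟩ : ∃ q, D ⊆ {p, q} := by
    have h2 : (D.erase p).card ≤ 1 := by
      rw [Finset.card_erase_of_mem hp]
      omega
    rcases Finset.eq_empty_or_nonempty (D.erase p) with h3 | ⟨q, hq⟩
    · refine ⟨p, fun x hx => ?_⟩
      by_contra hcon
      have : x ∈ D.erase p := Finset.mem_erase.2 ⟨fun h => hcon (by simp [h]), hx⟩
      rw [h3] at this
      simp at this
    · refine ⟨q, fun x hx => ?_⟩
      rw [Finset.mem_insert, Finset.mem_singleton]
      by_cases hxp : x = p
      · exact Or.inl hxp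
      · exact Or.inr (Finset.card_le_one.1 h2 x (Finset.mem_erase.2 ⟨hxp, hx⟩) q hq)
  -- closed domination in the larger graph
  have hcl : ∀ z, Cl (G ⊔ SimpleGraph.edge u v) p z ∨ Cl (G ⊔ SimpleGraph.edge u v) q z := by
    intro z
    by_cases hz : z ∈ D
    · have := hq hz
      rw [Finset.mem_insert, Finset.mem_singleton] at this
      rcases this with h3 | h3
      · exact Or.inl (Or.inl h3.symm)
      · exact Or.inr (Or.inl h3.symm)
    · obtain ⟨x, hx, hxz⟩ := hD z hz
      have := hq hx
      rw [Finset.mem_insert, Finset.mem_singleton] at this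
      rcases this with h3 | h3
      · subst h3
        exact Or.inl (Or.inr hxz.symm)
      · subst h3
        exact Or.inr (Or.inr hxz.symm)
  have hup : ∀ x z, Cl (G ⊔ SimpleGraph.edge u v) x z →
      Cl G x z ∨ (x = u ∧ z = v) ∨ (x = v ∧ z = u) := by
    intro x z hxz
    rcases hxz with hxz | hxz
    · exact Or.inl (Or.inl hxz)
    · rw [SimpleGraph.sup_adj, edge_adj'] at hxz
      rcases hxz with hxz | hxz
      · exact Or.inl (Or.inr hxz)
      · exact Or.inr hxz.1
  obtain ⟨z0, hz1, hz2⟩ := hd p q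
  have key : ∀ p q, (∀ z, Cl (G ⊔ SimpleGraph.edge u v) p z ∨
      Cl (G ⊔ SimpleGraph.edge u v) q z) → ¬ Cl G p z0 → ¬ Cl G q z0 →
      Cl (G ⊔ SimpleGraph.edge u v) p z0 → ∃ w, Prv G u w v ∨ Prv G v w u := by
    intro p q hcl hz1 hz2 hp0
    rcases hup p z0 hp0 with h3 | ⟨rfl, rfl⟩ | ⟨rfl, rfl⟩
    · exact absurd h3 hz1
    · refine ⟨q, Or.inl ⟨fun z hz => ?_, hz1, hz2⟩⟩
      rcases hcl z with h3 | h3
      · rcases hup _ _ h3 with h4 | ⟨-, h4⟩ | ⟨h4, -⟩
        · exact Or.inl h4
        · exact absurd h4 hz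
        · exact absurd h4 huv
      · rcases hup _ _ h3 with h4 | ⟨-, h4⟩ | ⟨-, h4⟩
        · exact Or.inr h4
        · exact absurd h4 hz
        · exact Or.inl (Or.inl h4.symm)
    · refine ⟨q, Or.inr ⟨fun z hz => ?_, hz1, hz2⟩⟩
      rcases hcl z with h3 | h3
      · rcases hup _ _ h3 with h4 | ⟨h4, -⟩ | ⟨-, h4⟩
        · exact Or.inl h4
        · exact absurd h4.symm huv
        · exact absurd h4 hz
      · rcases hup _ _ h3 with h4 | ⟨-, h4⟩ | ⟨-, h4⟩
        · exact Or.inr h4
        · exact Or.inl (Or.inl h4.symm)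
        · exact absurd h4 hz
  rcases hcl z0 with h3 | h3
  · exact key p q hcl hz1 hz2 h3
  · exact key q p (fun z => (hcl z).symm) hz2 hz1 h3

theorem connected_bound (r : ℕ) (hr : 4 ≤ r) (hre : Even r) {V : Type} [Fintype V]
    (G : SimpleGraph V) (hn : 2 * (r + 1) ^ 2 + 2 * (r + 1) + 1 ≤ Fintype.card V)
    (hconn : G.Connected) (hcrit : EdgeCritical 3 G) : lowCount G r ≤ r := by
  classical
  by_contra hcon
  push Not at hcon
  unfold lowCount at hcon
  have hfin : {v : V | (G.neighborSet v).ncard ≤ r}.Finite := Set.toFinite _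
  rw [Set.ncard_eq_toFinset_card _ hfin] at hcon
  obtain ⟨S, hS1, hS2⟩ := Finset.exists_subset_card_eq (show r + 1 ≤ hfin.toFinset.card by omega)
  refine core G r hr hre hconn (by omega) (hdom_of hcrit.1) (hcrit_of hcrit) S hS2 ?_
  intro a ha
  have h1 := hS1 ha
  rw [Set.Finite.mem_toFinset, Set.mem_ofPred_eq] at h1
  have h2 : Ncl G a ⊆ insert a (G.neighborSet a).toFinset := by
    intro z hz
    rw [mem_Ncl] at hz
    rw [Finset.mem_insert, Set.mem_toFinset, SimpleGraph.mem_neighborSet]
    rcases hz with hz | hz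
    · exact Or.inl hz.symm
    · exact Or.inr hz
  have h3 := Finset.card_le_card h2
  have h4 := Finset.card_insert_le a (G.neighborSet a).toFinset
  rw [Set.ncard_eq_toFinset_card'] at h1
  omega

/-! ### Disconnected graphs -/

/-- Disjoint union of a complete graph on `r + 1` vertices and the complement of a perfect
matching on `2 m` vertices. -/
def K (r m : ℕ) : SimpleGraph (Fin (r + 1) ⊕ (Fin m × Bool)) where
  Adj x y := match x, y with
    | Sum.inl a, Sum.inl b => a ≠ b
    | Sum.inr a, Sum.inr b => a.1 ≠ b.1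
    | _, _ => False
  symm := ⟨by
    rintro (a | a) (b | b) h
    · exact Ne.symm h
    · exact h
    · exact h
    · exact Ne.symm h⟩
  loopless := ⟨by
    rintro (a | a) h
    · exact h rfl
    · exact h rfl⟩

theorem K_ll {r m : ℕ} {a b : Fin (r + 1)} : (K r m).Adj (Sum.inl a) (Sum.inl b) ↔ a ≠ b :=
  Iff.rfl

theorem K_rr {r m : ℕ} {a b : Fin m × Bool} :
    (K r m).Adj (Sum.inr a) (Sum.inr b) ↔ a.1 ≠ b.1 := Iff.rfl

theorem K_lr {r m : ℕ} {a : Fin (r + 1)} {b : Fin m × Bool} :
    ¬ (K r m).Adj (Sum.inl a) (Sum.inr b) := fun h => h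

theorem K_rl {r m : ℕ} {a : Fin (r + 1)} {b : Fin m × Bool} :
    ¬ (K r m).Adj (Sum.inr b) (Sum.inl a) := fun h => h

theorem K_dom_lower {r m : ℕ} (hm : 0 < m) (D : Finset (Fin (r + 1) ⊕ (Fin m × Bool)))
    (hD : Dominating (K r m) D) : 3 ≤ D.card := by
  classical
  obtain ⟨a, ha⟩ : ∃ a, Sum.inl a ∈ D := by
    by_contra hcon
    push Not at hcon
    obtain ⟨u, hu, hadj⟩ := hD (Sum.inl 0) (hcon 0)
    rcases u with u | u
    · exact hcon u hu
    · exact K_lr hadj
  obtain ⟨x, hx⟩ : ∃ x, Sum.inr x ∈ D := by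
    by_contra hcon
    push Not at hcon
    obtain ⟨u, hu, hadj⟩ := hD (Sum.inr (⟨0, hm⟩, false)) (hcon _)
    rcases u with u | u
    · exact K_rl hadj
    · exact hcon u hu
  obtain ⟨y, hy, hxy⟩ : ∃ y, Sum.inr y ∈ D ∧ y ≠ x := by
    by_cases hx' : (Sum.inr (x.1, !x.2) : Fin (r + 1) ⊕ (Fin m × Bool)) ∈ D
    · refine ⟨_, hx', ?_⟩
      intro h
      have := congrArg Prod.snd h
      simp at this
    · obtain ⟨u, hu, hadj⟩ := hD _ hx'
      rcases u with u | u
      · exact absurd hadj K_rl
      · refine ⟨u, hu, ?_⟩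
        rintro rfl
        exact hadj rfl
  have h1 : ({Sum.inl a, Sum.inr x, Sum.inr y} : Finset (Fin (r + 1) ⊕ (Fin m × Bool))) ⊆ D := by
    intro z hz
    simp only [Finset.mem_insert, Finset.mem_singleton] at hz
    rcases hz with rfl | rfl | rfl
    · exact ha
    · exact hx
    · exact hy
  have h2 := Finset.card_le_card h1
  have h3 : ({Sum.inl a, Sum.inr x, Sum.inr y} :
      Finset (Fin (r + 1) ⊕ (Fin m × Bool))).card = 3 := by
    rw [Finset.card_eq_three]
    exact ⟨_, _, _, by simp, by simp, by simpa using Ne.symm hxy, rfl⟩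
  omega

theorem K_domNumber {r m : ℕ} (hm : 0 < m) : domNumber (K r m) = 3 := by
  classical
  apply le_antisymm
  · have h : Dominating (K r m)
        {Sum.inl 0, Sum.inr (⟨0, hm⟩, false), Sum.inr (⟨0, hm⟩, true)} := by
      rintro (a | ⟨i, s⟩) hv
      · simp only [Finset.mem_insert, Finset.mem_singleton, Sum.inl.injEq, reduceCtorEq,
          or_false] at hv
        exact ⟨Sum.inl 0, by simp, hv⟩
      · simp only [Finset.mem_insert, Finset.mem_singleton, Sum.inr.injEq, reduceCtorEq,
          false_or, Prod.mk.injEq, not_or] at hv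
        refine ⟨Sum.inr (⟨0, hm⟩, false), by simp, ?_⟩
        rw [K_rr]
        intro h
        simp only at h
        rcases s with _ | _
        · exact hv.1 ⟨h, rfl⟩
        · exact hv.2 ⟨h, rfl⟩
    exact (domNumber_le h).trans Finset.card_le_three
  · obtain ⟨D, hD, hDc⟩ := exists_dom (K r m)
    rw [← hDc]
    exact K_dom_lower hm D hD

theorem dom_lr {r m : ℕ} (G : SimpleGraph (Fin (r + 1) ⊕ (Fin m × Bool))) (hG : K r m ≤ G)
    (a : Fin (r + 1)) (x : Fin m × Bool) (h : G.Adj (Sum.inl a) (Sum.inr x)) :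
    domNumber G < 3 := by
  classical
  have hD : Dominating G {Sum.inl a, Sum.inr (x.1, !x.2)} := by
    rintro (b | ⟨i, s⟩) hv
    · simp only [Finset.mem_insert, Finset.mem_singleton, Sum.inl.injEq, reduceCtorEq,
        or_false] at hv
      exact ⟨Sum.inl a, by simp, hG (K_ll.2 hv)⟩
    · by_cases hi : i = x.1
      · have hs : s = x.2 := by
          by_contra hs
          apply hv
          simp only [Finset.mem_insert, Finset.mem_singleton, Sum.inr.injEq, reduceCtorEq,
            false_or, Prod.mk.injEq]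
          refine ⟨hi, ?_⟩
          rcases s with _ | _ <;> rcases hx : x.2 with _ | _ <;> simp_all
        refine ⟨Sum.inl a, by simp, ?_⟩
        have e : (i, s) = x := Prod.ext hi hs
        rw [e]
        exact h.symm
      · exact ⟨Sum.inr (x.1, !x.2), by simp, hG (K_rr.2 hi)⟩
  have h1 := domNumber_le hD
  have h2 : ({Sum.inl a, Sum.inr (x.1, !x.2)} :
    Finset (Fin (r + 1) ⊕ (Fin m × Bool))).card ≤ 2 := Finset.card_le_two
  omega

theorem dom_rr {r m : ℕ} (G : SimpleGraph (Fin (r + 1) ⊕ (Fin m × Bool))) (hG : K r m ≤ G)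
    (x y : Fin m × Bool) (hxy : x ≠ y) (hxy1 : x.1 = y.1)
    (h : G.Adj (Sum.inr x) (Sum.inr y)) : domNumber G < 3 := by
  classical
  have hD : Dominating G {Sum.inl 0, Sum.inr x} := by
    rintro (b | ⟨i, s⟩) hv
    · simp only [Finset.mem_insert, Finset.mem_singleton, Sum.inl.injEq, reduceCtorEq,
        or_false] at hv
      exact ⟨Sum.inl 0, by simp, hG (K_ll.2 hv)⟩
    · by_cases hi : i = x.1
      · have hs : ¬ s = x.2 := by
          intro hs
          apply hv
          simp only [Finset.mem_insert, Finset.mem_singleton, Sum.inr.injEq, reduceCtorEq,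
            false_or]
          exact Prod.ext hi hs
        have hs' : s = y.2 := by
          have hne : x.2 ≠ y.2 := fun h' => hxy (Prod.ext hxy1 h')
          rcases s with _ | _ <;> rcases hx : x.2 with _ | _ <;>
            rcases hy : y.2 with _ | _ <;> simp_all
        refine ⟨Sum.inr x, by simp, ?_⟩
        have e : (i, s) = y := Prod.ext (hi.trans hxy1) hs'
        rw [e]
        exact h.symm
      · exact ⟨Sum.inr x, by simp, hG (K_rr.2 hi)⟩
  have h1 := domNumber_le hD
  have h2 : ({Sum.inl 0, Sum.inr x} :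
    Finset (Fin (r + 1) ⊕ (Fin m × Bool))).card ≤ 2 := Finset.card_le_two
  omega

theorem K_critical {r m : ℕ} (hm : 0 < m) : EdgeCritical 3 (K r m) := by
  refine ⟨K_domNumber hm, ?_⟩
  intro u v huv hadj
  have hle : K r m ≤ K r m ⊔ SimpleGraph.edge u v := le_sup_left
  have hnew : (K r m ⊔ SimpleGraph.edge u v).Adj u v := by
    rw [SimpleGraph.sup_adj, edge_adj']
    exact Or.inr ⟨Or.inl ⟨rfl, rfl⟩, huv⟩
  rcases u with a | x <;> rcases v with b | y
  · exact absurd (K_ll.2 (fun h => huv (by rw [h]))) hadj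
  · exact dom_lr _ hle a y hnew
  · exact dom_lr _ hle b x hnew.symm
  · have h1 : x.1 = y.1 := by
      by_contra h
      exact hadj (K_rr.2 h)
    exact dom_rr _ hle x y (fun h => huv (by rw [h])) h1 hnew

theorem K_low {r m : ℕ} : r + 1 ≤ lowCount (K r m) r := by
  classical
  have h1 : (Set.range (Sum.inl : Fin (r + 1) → Fin (r + 1) ⊕ (Fin m × Bool))) ⊆
      {v | ((K r m).neighborSet v).ncard ≤ r} := by
    rintro _ ⟨a, rfl⟩
    rw [Set.mem_ofPred_eq]
    have h2 : (K r m).neighborSet (Sum.inl a) ⊆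
        ((Finset.univ.erase a).image
          (Sum.inl : Fin (r + 1) → Fin (r + 1) ⊕ (Fin m × Bool)) :
          Finset (Fin (r + 1) ⊕ (Fin m × Bool))) := by
      rintro (b | b) hb
      · rw [SimpleGraph.mem_neighborSet, K_ll] at hb
        simp only [Finset.coe_image, Set.mem_image, Finset.coe_erase]
        exact ⟨b, by simpa using Ne.symm hb, rfl⟩
      · rw [SimpleGraph.mem_neighborSet] at hb
        exact absurd hb K_lr
    have h3 := Set.ncard_le_ncard h2 (Finset.finite_toSet _)
    rw [Set.ncard_coe_finset] at h3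
    have h4 : ((Finset.univ.erase a).image
        (Sum.inl : Fin (r + 1) → Fin (r + 1) ⊕ (Fin m × Bool))).card ≤ r := by
      refine Finset.card_image_le.trans ?_
      rw [Finset.card_erase_of_mem (Finset.mem_univ a), Finset.card_univ, Fintype.card_fin]
      omega
    omega
  have h2 := Set.ncard_le_ncard h1 (Set.toFinite _)
  have h3 : (Set.range (Sum.inl : Fin (r + 1) → Fin (r + 1) ⊕ (Fin m × Bool))).ncard =
      r + 1 := by
    rw [← Set.image_univ, Set.ncard_image_of_injective _ Sum.inl_injective, Set.ncard_univ,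
      Nat.card_eq_fintype_card, Fintype.card_fin]
  unfold lowCount
  omega

/-- Part 1: for every even `r ≥ 4` there is `N` such that every connected 3-edge-critical graph on
at least `N` vertices has at most `r` vertices of degree at most `r`.
Part 2: connectedness cannot be dropped: for every `r` there are arbitrarily large (disconnected)
3-edge-critical graphs with at least `r + 1` vertices of degree at most `r`. -/
theorem result :
    (∀ r : ℕ, 4 ≤ r → Even r → ∃ N : ℕ, ∀ (V : Type) [Fintype V] (G : SimpleGraph V),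
      N ≤ Fintype.card V → G.Connected → EdgeCritical 3 G → lowCount G r ≤ r) ∧
    (∀ r N : ℕ, ∃ (V : Type) (_ : Fintype V) (G : SimpleGraph V),
      N ≤ Fintype.card V ∧ EdgeCritical 3 G ∧ ¬ G.Connected ∧ r + 1 ≤ lowCount G r) := by
  refine ⟨fun r hr hre => ⟨2 * (r + 1) ^ 2 + 2 * (r + 1) + 1, ?_⟩, ?_⟩
  · intro V _ G hn hconn hcrit
    exact connected_bound r hr hre G hn hconn hcrit
  · intro r N
    refine ⟨Fin (r + 1) ⊕ (Fin (N + 1) × Bool), inferInstance, K r (N + 1), ?_,
      K_critical (Nat.succ_pos N), ?_, K_low⟩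
    · simp only [Fintype.card_sum, Fintype.card_fin, Fintype.card_prod, Fintype.card_bool]
      omega
    · intro hconn
      obtain ⟨walk⟩ := hconn.preconnected (Sum.inl 0)
        (Sum.inr ((0 : Fin (N + 1)), false))
      obtain ⟨d, -, h1, h2⟩ := walk.exists_boundary_dart (Set.range Sum.inl) ⟨0, rfl⟩
        (by rintro ⟨x, hx⟩; simp at hx)
      obtain ⟨x, hx⟩ := h1
      have h3 := d.adj
      rw [← hx] at h3
      rcases hd : d.snd with y | y
      · rw [hd] at h2
        exact h2 ⟨y, rfl⟩
      · rw [hd] at h3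
        exact K_lr h3

end Pool.Agent.Results.MP_39baa9_co.EvenDegreeBound
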